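import Pool.Agent.Work.MP_f50f0f_gt.CMain

/-! There is a model of ZFC with a Tychonoff space `X` such that every closed subspace of `C_p(X)`
is separable and `L_p(X)` is not normal (so it is not perfectly normal). -/

namespace Pool.Agent.Results.MP_f50f0f_gt.ConCounter
open Pool.Agent.Lib.ZFModel Pool.Agent.Work.MP_63c7e0_lc Pool.Agent.Work.MP_d95c0d_gt
  Pool.Agent.Work.MP_f50f0f_gt

theorem result : ∃ (M : Type 1) (E : M → M → Prop), IsZFC E ∧
    ∃ R add mul lt z o ρ X τ C π L lam : M,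
      IsReals E R add mul lt z o ∧ IsOrderTop E R lt ρ ∧ IsTychonoff E X τ R ρ z o ∧
      (∀ f, E f C ↔ IsCont E f X τ R ρ) ∧ IsPw E C X ρ π ∧ ClosedSep E C π ∧
      IsLp E L C X R add mul z ∧ IsPw E L C ρ lam ∧ ¬ IsNormalSp E L lam :=
  main

end Pool.Agent.Results.MP_f50f0f_gt.ConCounter
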