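import Pool.Agent.Work.MP_f50f0f_gt.Perfect

namespace Pool.Agent.Results.MP_f50f0f_gt.Perfect

open Pool.Agent.Work.MP_f50f0f_gt

universe u

/-- For every Tychonoff space `X`: if every closed subspace of `C_p(X)` is separable, then every
closed subset of `L_p(X)` is a `G_δ`-set. -/
theorem result :
    ∀ (X : Type u) [TopologicalSpace X] [T35Space X],
      (∀ S : Set ↥{f : X → ℝ | Continuous f}, IsClosed S → TopologicalSpace.SeparableSpace ↥S) →
        ∀ s : Set ↥(Set.range (fun a : X →₀ ℝ => fun f : C(X, ℝ) => a.sum (fun x r => r * f x))),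
          IsClosed s → IsGδ s := by
  intro X _ _ H s hs
  exact isGδ_of_isClosed H hs

end Pool.Agent.Results.MP_f50f0f_gt.Perfect
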