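import Pool.Agent.Work.MP_f50f0f_gt.ZeroDim

namespace Pool.Agent.Results.MP_f50f0f_gt.ZeroDim

open Pool.Agent.Work.MP_f50f0f_gt

universe u

/-- For a zero-dimensional Tychonoff space `X` (the clopen sets form a base): if every closed
subspace of `C_p(X)` is separable, then `L_p(X)` is perfectly normal. -/
theorem result :
    ∀ (X : Type u) [TopologicalSpace X] [T35Space X],
      TopologicalSpace.IsTopologicalBasis {s : Set X | IsClopen s} →
      (∀ S : Set ↥{f : X → ℝ | Continuous f}, IsClosed S → TopologicalSpace.SeparableSpace ↥S) →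
      (NormalSpace ↥(Set.range (fun a : X →₀ ℝ => fun f : C(X, ℝ) => a.sum (fun x r => r * f x))) ∧
        ∀ s : Set ↥(Set.range (fun a : X →₀ ℝ => fun f : C(X, ℝ) => a.sum (fun x r => r * f x))),
          IsClosed s → IsGδ s) := by
  intro X _ _ hz H
  have := perfectlyNormal_of_ultra H (ultra_of_hyp H hz)
  exact ⟨inferInstance, fun s hs => hs.isGδ⟩

end Pool.Agent.Results.MP_f50f0f_gt.ZeroDim
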